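import Mathlib
import Pool.Agent.Y769.NC.Main

set_option autoImplicit false

namespace Pool.Agent.Results.MP_a8759f_co.NonconstructibleEverySpace

open Pool.Agent.Helper175.NS Pool.Agent.Y769.NC

/-- Let the space `X` be homeomorphic to the realization of a finite simplicial complex `Δ` of
dimension at least three. For every `N` there is a triangulation `Γ` of `X` with at least `N` faces
which is stellarly equivalent to `Δ` (so in the same piecewise linear class), is pure if `Δ` is
pure, and is not shellable, not shellable in the sense of Björner and Wachs, and not constructible;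
even the subcomplex generated by the faces of maximal dimension of `Γ` is not constructible. -/
theorem result (X : Type*) [TopologicalSpace X] (V : Type) (Δ : Cx V)
    (hX : Nonempty (X ≃ₜ Δ.space)) (hdim : ∃ F ∈ Δ.faces, 4 ≤ F.card) (N : ℕ) :
    ∃ Γ : Cx ℕ, StEq Δ Γ ∧ Nonempty (X ≃ₜ Γ.space) ∧ N ≤ Γ.faces.card ∧ (Δ.Pure → Γ.Pure) ∧
      ¬ Γ.Shellable ∧ ¬ NonpureShellable Γ ∧ ¬ Constructible Γ ∧ ¬ Constructible (top Γ) := by
  obtain ⟨Γ, h1, h2, h3, h4, h5⟩ := main2 X V Δ hX hdim (N + 1)
  have hne : Γ.faces.Nonempty := Finset.card_pos.1 (by omega)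
  have h6 : ¬ NonpureShellable Γ := fun h => h5 (top_of_nonpureShellable hne h)
  exact ⟨Γ, h1, h2, by omega, h4, fun h => h6 (nonpure_of_shellable h), h6,
    fun h => h5 (top_of_constructible h), h5⟩

end Pool.Agent.Results.MP_a8759f_co.NonconstructibleEverySpace
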